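import Pool.Agent.helper17.LQ.SpecQ

/-!
# MP_07c750, project LQ, row `lq:QKG`: from the grid to all scales, for the slopes
-/

open MeasureTheory Set

set_option autoImplicit false

namespace Pool.Agent.LP

noncomputable section

/-- the number of all elements -/
theorem QKG_all (C1 a η : ℝ) (G m : ℕ) (D : Finset ℤ) (hC1 : 1 ≤ C1) (h : AR C1 a η G m D) :
    (D.card : ℝ) ≤ (2 * C1 + 3) * (C1 * Real.exp ((a + η) * (G * m))) := by
  classical
  obtain ⟨hA1, hA2⟩ := h
  set K : ℕ := ⌈C1⌉₊ with hK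
  have hKC : C1 ≤ K := Nat.le_ceil _
  have hKC2 : (K : ℝ) ≤ C1 + 1 := (Nat.ceil_lt_add_one (by linarith)).le
  have hN0 : 0 < Real.exp (G * m) := Real.exp_pos _
  have hcov : D ⊆ (Finset.Icc (-(K : ℤ)) K).biUnion fun j : ℤ => D.filter fun d : ℤ => |(d : ℝ) - j * Real.exp (G * m)| ≤ Real.exp (G * m) := by
    intro d hd
    rw [Finset.mem_biUnion]
    have hdC := abs_le.1 (hA1 d hd)
    refine ⟨⌊(d : ℝ) / Real.exp (G * m)⌋, ?_, ?_⟩
    · rw [Finset.mem_Icc]
      constructor
      · rw [Int.le_floor]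
        push_cast
        rw [le_div_iff₀ hN0]
        nlinarith [hdC.1]
      · have : (⌊(d : ℝ) / Real.exp (G * m)⌋ : ℝ) ≤ K := by
          refine (Int.floor_le _).trans ?_
          rw [div_le_iff₀ hN0]
          nlinarith [hdC.2]
        exact_mod_cast this
    · rw [Finset.mem_filter]
      refine ⟨hd, ?_⟩
      have e1 := Int.floor_le ((d : ℝ) / Real.exp (G * m))
      have e2 := Int.lt_floor_add_one ((d : ℝ) / Real.exp (G * m))
      rw [le_div_iff₀ hN0] at e1
      rw [div_lt_iff₀ hN0] at e2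
      rw [abs_le]
      constructor <;> nlinarith
  have e1 : (D.card : ℝ) ≤ ∑ j ∈ Finset.Icc (-(K : ℤ)) K, ((D.filter fun d : ℤ => |(d : ℝ) - j * Real.exp (G * m)| ≤ Real.exp (G * m)).card : ℝ) := by
    exact_mod_cast (Finset.card_le_card hcov).trans Finset.card_biUnion_le
  refine e1.trans ?_
  have e2 : ∀ j ∈ Finset.Icc (-(K : ℤ)) K, ((D.filter fun d : ℤ => |(d : ℝ) - j * Real.exp (G * m)| ≤ Real.exp (G * m)).card : ℝ) ≤ C1 * Real.exp ((a + η) * (G * m)) :=
    fun j _ => hA2 G le_rfl (j * Real.exp (G * m))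
  refine (Finset.sum_le_sum e2).trans ?_
  rw [Finset.sum_const, nsmul_eq_mul, Int.card_Icc]
  refine mul_le_mul_of_nonneg_right ?_ (by positivity)
  have e3 : (((K : ℤ) + 1 - -(K : ℤ)).toNat : ℝ) = 2 * K + 1 := by
    have : ((K : ℤ) + 1 - -(K : ℤ)).toNat = 2 * K + 1 := by omega
    rw [this]
    push_cast
    ring
  rw [e3]
  linarith

/-- the count in an interval of arbitrary half length `R'` -/
theorem QKG_cnt (C1 h η : ℝ) (G m : ℕ) (K : Finset ℤ) (hC1 : 1 ≤ C1) (hh : 0 ≤ h) (hη : 0 ≤ η) (hhη : h + η ≤ 1)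
    (hm : 1 ≤ m) (hAR : AR C1 h η G m K) (y R' : ℝ) (hR : 1 ≤ R') :
    ((K.filter fun d : ℤ => |(d : ℝ) - y| ≤ R').card : ℝ) ≤ (2 * C1 + 3) * C1 * (Real.exp (m + η * (G * m)) * R' ^ h) := by
  classical
  have hR0 : 0 < R' := by linarith
  have hlogR : 0 ≤ Real.log R' := Real.log_nonneg hR
  have hm1 : (1 : ℝ) ≤ m := by exact_mod_cast hm
  have hm00 : (0 : ℝ) < m := by linarith
  have hRa : R' ^ h = Real.exp (h * Real.log R') := by
    rw [Real.rpow_def_of_pos hR0]
    ring_nf
  rw [hRa, ← Real.exp_add]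
  have hC11 : C1 ≤ (2 * C1 + 3) * C1 := by nlinarith
  rcases le_or_gt R' (Real.exp (G * m)) with hRN | hRN
  · have hlog : Real.log R' ≤ G * m := (Real.log_le_iff_le_exp hR0).2 hRN
    set i : ℕ := ⌈Real.log R' / m⌉₊ with hi
    have hiG : i ≤ G := by
      rw [hi, Nat.ceil_le, div_le_iff₀ hm00]
      exact hlog
    have hi1 : Real.log R' ≤ i * m := by
      have := Nat.le_ceil (Real.log R' / m)
      rw [div_le_iff₀ hm00] at this
      exact this
    have hi2 : (i : ℝ) * m ≤ Real.log R' + m := by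
      have := (Nat.ceil_lt_add_one (show 0 ≤ Real.log R' / m by positivity)).le
      have h5 : (i : ℝ) * m ≤ (Real.log R' / m + 1) * m := mul_le_mul_of_nonneg_right this hm00.le
      rwa [add_mul, one_mul, div_mul_cancel₀ _ hm00.ne'] at h5
    have hRi : R' ≤ Real.exp (i * m) := by
      rw [← Real.log_le_iff_le_exp hR0]
      exact hi1
    have h2 := hAR.2 i hiG y
    have h3 : ((K.filter fun d : ℤ => |(d : ℝ) - y| ≤ R').card : ℝ) ≤
        ((K.filter fun d : ℤ => |(d : ℝ) - y| ≤ Real.exp (i * m)).card : ℝ) := by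
      have h4 : (K.filter fun d : ℤ => |(d : ℝ) - y| ≤ R') ⊆ (K.filter fun d : ℤ => |(d : ℝ) - y| ≤ Real.exp (i * m)) := by
        intro d hd
        rw [Finset.mem_filter] at hd ⊢
        exact ⟨hd.1, hd.2.trans hRi⟩
      exact_mod_cast Finset.card_le_card h4
    refine h3.trans (h2.trans ?_)
    refine mul_le_mul hC11 (Real.exp_le_exp.mpr ?_) (Real.exp_pos _).le (by positivity)
    have h5 : (h + η) * (i * m) ≤ (h + η) * (Real.log R' + m) := mul_le_mul_of_nonneg_left hi2 (by linarith)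
    have h6 : η * Real.log R' ≤ η * (G * m) := mul_le_mul_of_nonneg_left hlog hη
    have h7 : (h + η) * m ≤ 1 * m := mul_le_mul_of_nonneg_right hhη hm00.le
    nlinarith
  · have hlogR2 : G * m ≤ Real.log R' := by
      rw [← Real.log_exp (G * m)]
      exact Real.log_le_log (Real.exp_pos _) hRN.le
    have hfc : ((K.filter fun d : ℤ => |(d : ℝ) - y| ≤ R').card : ℝ) ≤ K.card := by
      exact_mod_cast Finset.card_filter_le _ _
    refine hfc.trans ((QKG_all C1 h η G m K hC1 hAR).trans ?_)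
    rw [← mul_assoc]
    refine mul_le_mul_of_nonneg_left (Real.exp_le_exp.mpr ?_) (by positivity)
    have h5 : h * (G * m) ≤ h * Real.log R' := mul_le_mul_of_nonneg_left hlogR2 hh
    nlinarith

theorem QKG_proof : QKG_stmt := by
  classical
  intro C1 b hC1 hb0 hb1
  have h5b : 1 ≤ 5 / b := by
    rw [le_div_iff₀ hb0]
    linarith
  refine ⟨(2 * C1 + 3) * C1 * (5 / b), ?_, ?_⟩
  · have : 1 ≤ (2 * C1 + 3) * C1 := by nlinarith
    nlinarith
  intro h η G m K X hh hη hhη hG hm hAR hX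
  set ξ : ℝ := b / 4 * Real.exp (-(G * m)) with hξ
  have hN0 : 0 < Real.exp (G * m) := Real.exp_pos _
  have hξ0 : 0 < ξ := by rw [hξ]; positivity
  have hξN : ξ * Real.exp (G * m) = b / 4 := by
    rw [hξ, mul_assoc, ← Real.exp_add, neg_add_cancel, Real.exp_zero, mul_one]
  have hlt : ∀ k ∈ K, ∀ l ∈ K, k < l → X k < X l := by
    intro k hk l hl hkl
    have h1 := (hX k hk).2
    have h2 := (hX l hl).1
    have h3 : ((k : ℝ) + 1) * ξ ≤ l * ξ := by
      refine mul_le_mul_of_nonneg_right ?_ hξ0.le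
      exact_mod_cast hkl
    linarith
  have hinj : Set.InjOn X (K : Set ℤ) := by
    intro k hk l hl hkl
    rcases lt_trichotomy k l with h1 | h1 | h1
    · exact absurd hkl (hlt k hk l hl h1).ne
    · exact h1
    · exact absurd hkl (hlt l hl k hk h1).ne'
  refine ⟨Finset.card_image_of_injOn hinj, ?_⟩
  intro k hk R hR
  have hR0 : 0 < R := by linarith
  have hR' : 1 ≤ 5 / b * R := by nlinarith
  have h1 : (((K.image X).filter fun X' => |X k - X'| ≤ R / Real.exp (G * m)).card : ℝ) ≤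
      ((K.filter fun d : ℤ => |(d : ℝ) - k| ≤ 5 / b * R).card : ℝ) := by
    have h2 : ((K.image X).filter fun X' => |X k - X'| ≤ R / Real.exp (G * m)) ⊆
        (K.filter fun d : ℤ => |(d : ℝ) - k| ≤ 5 / b * R).image X := by
      intro t ht
      rw [Finset.mem_filter, Finset.mem_image] at ht
      obtain ⟨⟨l, hl, rfl⟩, hty⟩ := ht
      rw [Finset.mem_image]
      refine ⟨l, ?_, rfl⟩
      rw [Finset.mem_filter]
      refine ⟨hl, ?_⟩
      rw [le_div_iff₀ hN0] at hty
      have a1 := hX k hk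
      have a2 := hX l hl
      have hT := abs_le.1 (show |(X k - X l) * Real.exp (G * m)| ≤ R by rw [abs_mul, abs_of_pos hN0]; exact hty)
      have b1 : (k : ℝ) * (b / 4) ≤ X k * Real.exp (G * m) := by
        have := mul_le_mul_of_nonneg_right a1.1 hN0.le
        rwa [mul_assoc, hξN] at this
      have b2 : X k * Real.exp (G * m) ≤ (k + 1) * (b / 4) := by
        have := mul_le_mul_of_nonneg_right a1.2.le hN0.le
        rwa [mul_assoc, hξN] at this
      have b3 : (l : ℝ) * (b / 4) ≤ X l * Real.exp (G * m) := by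
        have := mul_le_mul_of_nonneg_right a2.1 hN0.le
        rwa [mul_assoc, hξN] at this
      have b4 : X l * Real.exp (G * m) ≤ (l + 1) * (b / 4) := by
        have := mul_le_mul_of_nonneg_right a2.2.le hN0.le
        rwa [mul_assoc, hξN] at this
      have hbR : b ≤ R := hb1.trans hR
      rw [div_mul_eq_mul_div, le_div_iff₀ hb0]
      have key1 : ((l : ℝ) - k) * b ≤ 5 * R := by nlinarith [hT.1]
      have key2 : ((k : ℝ) - l) * b ≤ 5 * R := by nlinarith [hT.2]
      rcases abs_cases ((l : ℝ) - k) with ⟨e, -⟩ | ⟨e, -⟩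
      · rw [e]; exact key1
      · rw [e]; linarith
    exact_mod_cast (Finset.card_le_card h2).trans Finset.card_image_le
  refine h1.trans ((QKG_cnt C1 h η G m K hC1 hh hη hhη hm hAR k (5 / b * R) hR').trans ?_)
  rw [Real.mul_rpow (by positivity) hR0.le]
  have hp : (5 / b) ^ h ≤ 5 / b := by
    have := Real.rpow_le_rpow_of_exponent_le h5b (show h ≤ 1 by linarith)
    rwa [Real.rpow_one] at this
  have hRh : 0 ≤ R ^ h := Real.rpow_nonneg hR0.le h
  have hE := (Real.exp_pos (m + η * (G * m))).le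
  calc (2 * C1 + 3) * C1 * (Real.exp (m + η * (G * m)) * ((5 / b) ^ h * R ^ h))
      = ((2 * C1 + 3) * C1 * (Real.exp (m + η * (G * m)) * R ^ h)) * (5 / b) ^ h := by ring
    _ ≤ ((2 * C1 + 3) * C1 * (Real.exp (m + η * (G * m)) * R ^ h)) * (5 / b) :=
        mul_le_mul_of_nonneg_left hp (by positivity)
    _ = (2 * C1 + 3) * C1 * (5 / b) * Real.exp (m + η * (G * m)) * R ^ h := by ring

end

end Pool.Agent.LP
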